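import Pool.Agent.helper132_dc.D9

/-! # Decoupling for the curve `(x, ..., x^m, x^k)` at the critical exponent of degree `m + 1`

In a residue class modulo `p^b` the exact equations of degrees `1, ..., m, k` give the equation of degree `m + 1` modulo
`p^b` in the rescaled variable, so decoupling for the moment curve of degree `m + 1` can be used at the levels `h` with
`(m + 1) h ≤ b`.
-/

set_option autoImplicit false

namespace Pool.Agent.U922.MV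

open Finset Pool.Agent.helper132_dc

variable {Ω : Type} [Fintype Ω]

/-- the system of degrees `1, ..., m` and `k` -/
def EX (m k s : ℕ) (x y : Fin s → ℤ) : Prop :=
  (∀ j, 1 ≤ j → j ≤ m → ∑ i, x i ^ j = ∑ i, y i ^ j) ∧ ∑ i, x i ^ k = ∑ i, y i ^ k

/-- orthogonality with respect to the exact system -/
def OE (w : Ω → ℝ) (F : ℤ → Ω → ℂ) (S : Finset ℤ) (m k s : ℕ) : Prop :=
  ∀ x y : Fin s → ℤ, (∀ i, x i ∈ S) → (∀ i, y i ∈ S) → ¬ EX m k s x y →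
    ∑ ω, (w ω : ℂ) * ((∏ i, F (x i) ω) * ∏ i, (starRingEnd ℂ) (F (y i) ω)) = 0

lemma ex_low {m s : ℕ} {c q : ℤ} (hq : q ≠ 0) {x y : Fin s → ℤ}
    (h : ∀ j, 1 ≤ j → j ≤ m → ∑ i, (c + q * x i) ^ j = ∑ i, (c + q * y i) ^ j) :
    ∀ j, j ≤ m → ∑ i, x i ^ j - ∑ i, y i ^ j = 0 := by
  intro j
  induction j using Nat.strong_induction_on with
  | _ j ih =>
    intro hjm
    rcases Nat.eq_zero_or_pos j with h0 | h0
    · subst h0; simp
    · have h1 := aff_ps j s c q x y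
      rw [h j h0 hjm, sub_self, Finset.sum_range_succ, Finset.sum_eq_zero (by
        intro r hr
        rw [Finset.mem_range] at hr
        rw [ih r hr (by omega), mul_zero]), zero_add, Nat.choose_self, Nat.sub_self, pow_zero] at h1
      have h2 : q ^ j * (∑ i, x i ^ j - ∑ i, y i ^ j) = 0 := by
        rw [h1]; push_cast; ring
      rcases mul_eq_zero.1 h2 with h3 | h3
      · exact absurd h3 (pow_ne_zero _ hq)
      · exact h3

lemma ex_top {m k s p b : ℕ} (hp : p.Prime) (hkp : k < p) (hmk : m + 1 ≤ k) {c : ℤ} (hc : ¬ (p : ℤ) ∣ c)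
    {x y : Fin s → ℤ}
    (hlow : ∀ j, j ≤ m → ∑ i, x i ^ j - ∑ i, y i ^ j = 0)
    (h : ∑ i, (c + (p : ℤ) ^ b * x i) ^ k = ∑ i, (c + (p : ℤ) ^ b * y i) ^ k) :
    (p : ℤ) ^ b ∣ ∑ i, x i ^ (m + 1) - ∑ i, y i ^ (m + 1) := by
  have hp0 : (p : ℤ) ≠ 0 := by exact_mod_cast hp.ne_zero
  have h1 := aff_ps k s c ((p : ℤ) ^ b) x y
  rw [h, sub_self] at h1
  have hmem : m + 1 ∈ range (k + 1) := Finset.mem_range.2 (by omega)
  rw [← Finset.add_sum_erase _ _ hmem] at h1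
  have h2 : ((p : ℤ) ^ b) ^ (m + 2) ∣ ∑ r ∈ (range (k + 1)).erase (m + 1),
      (k.choose r : ℤ) * c ^ (k - r) * ((p : ℤ) ^ b) ^ r * (∑ i, x i ^ r - ∑ i, y i ^ r) := by
    refine Finset.dvd_sum fun r hr => ?_
    rw [Finset.mem_erase] at hr
    rcases Nat.lt_or_ge m r with h3 | h3
    · have h4 : m + 2 ≤ r := by omega
      exact Dvd.dvd.mul_right (Dvd.dvd.mul_left (pow_dvd_pow _ h4) _) _
    · rw [hlow r h3, mul_zero]; exact dvd_zero _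
  have h3 : ((p : ℤ) ^ b) ^ (m + 2) ∣ (k.choose (m + 1) : ℤ) * c ^ (k - (m + 1)) * ((p : ℤ) ^ b) ^ (m + 1) *
      (∑ i, x i ^ (m + 1) - ∑ i, y i ^ (m + 1)) := by
    have h4 : (k.choose (m + 1) : ℤ) * c ^ (k - (m + 1)) * ((p : ℤ) ^ b) ^ (m + 1) *
      (∑ i, x i ^ (m + 1) - ∑ i, y i ^ (m + 1)) = -(∑ r ∈ (range (k + 1)).erase (m + 1),
      (k.choose r : ℤ) * c ^ (k - r) * ((p : ℤ) ^ b) ^ r * (∑ i, x i ^ r - ∑ i, y i ^ r)) := by
      linarith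
    rw [h4]
    exact (dvd_neg).2 h2
  have h5 : ((p : ℤ) ^ b) ^ (m + 1) * (p : ℤ) ^ b ∣ ((p : ℤ) ^ b) ^ (m + 1) *
      (((k.choose (m + 1) : ℤ) * c ^ (k - (m + 1))) * (∑ i, x i ^ (m + 1) - ∑ i, y i ^ (m + 1))) := by
    refine dvd_trans (dvd_of_eq ?_) (dvd_trans h3 (dvd_of_eq ?_))
    · rw [← pow_succ]
    · ring
  have h6 := Int.dvd_of_mul_dvd_mul_left (pow_ne_zero _ (pow_ne_zero _ hp0)) h5
  have hcop : IsCoprime ((p : ℤ) ^ b) ((k.choose (m + 1) : ℤ) * c ^ (k - (m + 1))) := by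
    apply IsCoprime.pow_left
    have hpi : Prime (p : ℤ) := Nat.prime_iff_prime_int.1 hp
    apply IsCoprime.mul_right
    · rw [Prime.coprime_iff_not_dvd hpi]
      intro hd
      have h7 : p ∣ k.choose (m + 1) := by exact_mod_cast hd
      have h8 : p ∣ k.factorial := by
        rw [← Nat.choose_mul_factorial_mul_factorial hmk]
        exact Dvd.dvd.mul_right (Dvd.dvd.mul_right h7 _) _
      have h9 := (Nat.Prime.dvd_factorial hp).1 h8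
      omega
    · apply IsCoprime.pow_right
      rw [Prime.coprime_iff_not_dvd hpi]
      exact hc
  exact hcop.dvd_of_dvd_mul_left h6

/-- one step -/
lemma step {p m k b h : ℕ} {K : ℝ} (hp : p.Prime) (hkp : k < p) (hmk : m + 1 ≤ k)
    (hDec : Dec Ω p (m + 1) h K) (w : Ω → ℝ) (F : ℤ → Ω → ℂ) (S : Finset ℤ) (hw : ∀ ω, 0 ≤ w ω)
    (hS : ∀ n ∈ S, ¬ (p : ℤ) ∣ n) (hOE : OE w F S m k (sk (m + 1))) (hb1 : 1 ≤ b) (hb : (m + 1) * h ≤ b) (c : ℤ) :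
    nm w (sk (m + 1)) (Sm (cls (p ^ b) S c) F) ≤
      K * (∑ e ∈ range (p ^ h), nm w (sk (m + 1)) (Sm (cls (p ^ (b + h)) S (c + (p : ℤ) ^ b * e)) F) ^
        ((1 : ℝ) / sk (m + 1))) ^ sk (m + 1) := by
  have hp1 : 1 ≤ p := hp.one_lt.le
  have hp0 : (p : ℤ) ≠ 0 := by exact_mod_cast hp.ne_zero
  refine dec_affine hp1 hDec w F S hw c b ?_
  intro x y hx hy hn
  refine hOE (fun i => c + ((p ^ b : ℕ) : ℤ) * x i) (fun i => c + ((p ^ b : ℕ) : ℤ) * y i)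
      (fun i => mem_pre.1 (hx i)) (fun i => mem_pre.1 (hy i)) ?_
  intro hE
  apply hn
  obtain ⟨hE1, hE2⟩ := hE
  beta_reduce at hE1 hE2
  push_cast at hE1 hE2
  have hlow := ex_low (pow_ne_zero b hp0) hE1
  have hs1 : 0 < sk (m + 1) := sk_pos (m + 1) (by omega)
  have hc : ¬ (p : ℤ) ∣ c := by
    intro hd
    have h1 := mem_pre.1 (hx ⟨0, hs1⟩)
    apply hS _ h1
    refine dvd_add hd (Dvd.dvd.mul_right ?_ _)
    push_cast
    exact dvd_pow_self _ (by omega)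
  have htop := ex_top hp hkp hmk hc hlow hE2
  intro j hj1 hjm
  rcases Nat.lt_or_ge m j with h1 | h1
  · have : j = m + 1 := by omega
    rw [this]
    exact dvd_trans (pow_dvd_pow _ hb) htop
  · rw [hlow j h1]
    exact dvd_zero _

/-- decoupling at level `b` -/
def DD (w : Ω → ℝ) (F : ℤ → Ω → ℂ) (S : Finset ℤ) (p s b : ℕ) (K : ℝ) : Prop :=
  nm w s (Sm S F) ≤ K * (∑ c ∈ range (p ^ b), nm w s (Sm (cls (p ^ b) S c) F) ^ ((1 : ℝ) / s)) ^ s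

lemma dd_nonneg {w : Ω → ℝ} (hw : ∀ ω, 0 ≤ w ω) (F : ℤ → Ω → ℂ) (S : Finset ℤ) (p s b : ℕ) :
    0 ≤ (∑ c ∈ range (p ^ b), nm w s (Sm (cls (p ^ b) S c) F) ^ ((1 : ℝ) / s)) ^ s :=
  pow_nonneg (Finset.sum_nonneg fun c _ => Real.rpow_nonneg (nm_nonneg hw _ _) _) _

lemma DD.mono {w : Ω → ℝ} (hw : ∀ ω, 0 ≤ w ω) {F : ℤ → Ω → ℂ} {S : Finset ℤ} {p s b : ℕ} {K K' : ℝ}
    (h : DD w F S p s b K) (hK : K ≤ K') : DD w F S p s b K' :=
  h.trans (mul_le_mul_of_nonneg_right hK (dd_nonneg hw _ _ _ _ _))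

/-- the trivial bound -/
lemma dd_trivial {w : Ω → ℝ} (hw : ∀ ω, 0 ≤ w ω) (F : ℤ → Ω → ℂ) (S : Finset ℤ) (p s B : ℕ) (hp : 1 ≤ p)
    (hs : 1 ≤ s) : DD w F S p s B (((p : ℝ) ^ B) ^ (2 * s)) := by
  have hP : 1 ≤ p ^ B := Nat.one_le_pow _ _ hp
  unfold DD
  have hpt : ∀ ω, ‖Sm S F ω‖ ^ (2 * s) ≤ ((p : ℝ) ^ B) ^ (2 * s) *
      ∑ c ∈ range (p ^ B), ‖Sm (cls (p ^ B) S c) F ω‖ ^ (2 * s) := by
    intro ω
    have h1 := Sm_split 1 (p ^ B) le_rfl hP S 0 F ω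
    rw [cls_one] at h1
    simp only [one_mul, Nat.cast_one, zero_add] at h1
    obtain ⟨e, he, h2⟩ := exists_large (p ^ B) hP (fun e => Sm (cls (p ^ B) S e) F ω)
    rw [← h1] at h2
    refine (pow_le_pow_left₀ (norm_nonneg _) h2 _).trans ?_
    rw [mul_pow]
    push_cast
    refine mul_le_mul_of_nonneg_left ?_ (by positivity)
    exact Finset.single_le_sum (f := fun c : ℕ => ‖Sm (cls (p ^ B) S c) F ω‖ ^ (2 * s)) (fun c _ => by positivity)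
        (Finset.mem_range.2 he)
  have h3 : nm w s (Sm S F) ≤ ((p : ℝ) ^ B) ^ (2 * s) *
      ∑ c ∈ range (p ^ B), nm w s (Sm (cls (p ^ B) S c) F) := by
    unfold nm
    refine (Finset.sum_le_sum fun ω _ => mul_le_mul_of_nonneg_left (hpt ω) (hw ω)).trans (le_of_eq ?_)
    rw [Finset.sum_comm, Finset.mul_sum]
    refine Finset.sum_congr rfl fun ω _ => ?_
    rw [← Finset.mul_sum]; ring
  refine h3.trans (mul_le_mul_of_nonneg_left ?_ (by positivity))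
  have h4 := sum_pow_le (range (p ^ B)) s hs
    (fun c => nm w s (Sm (cls (p ^ B) S c) F) ^ ((1 : ℝ) / s))
    (fun c _ => Real.rpow_nonneg (nm_nonneg hw _ _) _)
  refine le_trans (le_of_eq ?_) h4
  refine Finset.sum_congr rfl fun c _ => ?_
  rw [one_div, Real.rpow_inv_natCast_pow (nm_nonneg hw _ _) (by omega)]

/-- composition of a level `b` decoupling with a decoupling of every class -/
lemma dd_comp {w : Ω → ℝ} (hw : ∀ ω, 0 ≤ w ω) (F : ℤ → Ω → ℂ) (S : Finset ℤ) (p s b h : ℕ) (hs : 1 ≤ s)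
    {K1 K2 : ℝ} (hK1 : 0 ≤ K1) (hK2 : 0 ≤ K2) (h1 : DD w F S p s b K1)
    (h2 : ∀ c : ℤ, nm w s (Sm (cls (p ^ b) S c) F) ≤
      K2 * (∑ e ∈ range (p ^ h), nm w s (Sm (cls (p ^ (b + h)) S (c + (p : ℤ) ^ b * e)) F) ^ ((1 : ℝ) / s)) ^ s) :
    DD w F S p s (b + h) (K1 * K2) := by
  unfold DD at h1 ⊢
  have hs0 : (s : ℝ) ≠ 0 := by exact_mod_cast (by omega : s ≠ 0)
  have h3 : ∀ c : ℤ, nm w s (Sm (cls (p ^ b) S c) F) ^ ((1 : ℝ) / s) ≤ K2 ^ ((1 : ℝ) / s) *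
      ∑ e ∈ range (p ^ h), nm w s (Sm (cls (p ^ (b + h)) S (c + (p : ℤ) ^ b * e)) F) ^ ((1 : ℝ) / s) := by
    intro c
    have hA : 0 ≤ ∑ e ∈ range (p ^ h), nm w s (Sm (cls (p ^ (b + h)) S (c + (p : ℤ) ^ b * e)) F) ^ ((1 : ℝ) / s) :=
      Finset.sum_nonneg fun e _ => Real.rpow_nonneg (nm_nonneg hw _ _) _
    refine (Real.rpow_le_rpow (nm_nonneg hw _ _) (h2 c) (by positivity)).trans (le_of_eq ?_)
    rw [Real.mul_rpow hK2 (pow_nonneg hA _), ← Real.rpow_natCast, ← Real.rpow_mul hA, mul_one_div_cancel hs0,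
      Real.rpow_one]
  have h4 : ∑ c ∈ range (p ^ b), nm w s (Sm (cls (p ^ b) S c) F) ^ ((1 : ℝ) / s) ≤ K2 ^ ((1 : ℝ) / s) *
      ∑ c ∈ range (p ^ (b + h)), nm w s (Sm (cls (p ^ (b + h)) S c) F) ^ ((1 : ℝ) / s) := by
    refine (Finset.sum_le_sum fun (c : ℕ) _ => h3 (c : ℤ)).trans (le_of_eq ?_)
    rw [← Finset.mul_sum, pow_add p b h, sum_digits (p ^ b) (p ^ h)
      (fun c => nm w s (Sm (cls (p ^ b * p ^ h) S c) F) ^ ((1 : ℝ) / s))]
    congr 1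
  refine h1.trans ?_
  rw [mul_assoc]
  refine mul_le_mul_of_nonneg_left ?_ hK1
  refine (pow_le_pow_left₀ (Finset.sum_nonneg fun c _ => Real.rpow_nonneg (nm_nonneg hw _ _) _) h4 s).trans
    (le_of_eq ?_)
  rw [mul_pow, one_div, Real.rpow_inv_natCast_pow hK2 (by omega)]

/-- **decoupling for the curve `(x, ..., x^m, x^k)` over units** -/
theorem dd_main (p m k : ℕ) (hp : p.Prime) (hkp : k < p) (hmk : m + 1 ≤ k) (C ε : ℝ) (hε : 0 < ε)
    (hC : 1 ≤ C) (hU : UDec p (m + 1) C ε) :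
    ∃ C' : ℝ, 1 ≤ C' ∧ ∀ (Ω : Type) (_ : Fintype Ω) (w : Ω → ℝ) (F : ℤ → Ω → ℂ) (S : Finset ℤ),
      (∀ ω, 0 ≤ w ω) → (∀ n ∈ S, ¬ (p : ℤ) ∣ n) → OE w F S m k (sk (m + 1)) →
      ∀ B : ℕ, DD w F S p (sk (m + 1)) B (C' * (p : ℝ) ^ (2 * ε * B)) := by
  have hp1 : (1 : ℝ) < p := by exact_mod_cast hp.one_lt
  have hp0 : (0 : ℝ) < p := by linarith
  have hs1 : 1 ≤ sk (m + 1) := sk_pos (m + 1) (by omega)
  obtain ⟨h0, hh1, hh0⟩ : ∃ h0 : ℕ, 1 ≤ h0 ∧ C ≤ (p : ℝ) ^ (ε * h0) := by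
    have hpe : (1 : ℝ) < (p : ℝ) ^ ε := Real.one_lt_rpow hp1 hε
    obtain ⟨n, hn⟩ := pow_unbounded_of_one_lt C hpe
    refine ⟨n + 1, by omega, ?_⟩
    rw [Real.rpow_mul hp0.le, Real.rpow_natCast]
    exact hn.le.trans (pow_le_pow_right₀ hpe.le (by omega))
  refine ⟨((p : ℝ) ^ ((m + 2) * h0)) ^ (2 * sk (m + 1)), one_le_pow₀ (one_le_pow₀ hp1.le), ?_⟩
  intro Ω _ w F S hw hS hOE B
  induction B using Nat.strong_induction_on with
  | _ B ih =>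
    rcases Nat.lt_or_ge B ((m + 2) * h0) with h1 | h1
    · refine (dd_trivial hw F S p (sk (m + 1)) B hp.one_lt.le hs1).mono hw ?_
      have h2 : (1 : ℝ) ≤ (p : ℝ) ^ (2 * ε * B) := Real.one_le_rpow hp1.le (by positivity)
      have h3 : ((p : ℝ) ^ B) ^ (2 * sk (m + 1)) ≤ ((p : ℝ) ^ ((m + 2) * h0)) ^ (2 * sk (m + 1)) :=
        pow_le_pow_left₀ (by positivity) (pow_le_pow_right₀ hp1.le h1.le) _
      calc ((p : ℝ) ^ B) ^ (2 * sk (m + 1)) ≤ ((p : ℝ) ^ ((m + 2) * h0)) ^ (2 * sk (m + 1)) * 1 := by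
            rw [mul_one]; exact h3
        _ ≤ _ := mul_le_mul_of_nonneg_left h2 (by positivity)
    · obtain ⟨b, rfl⟩ : ∃ b, B = b + h0 := ⟨B - h0, by
        have : h0 ≤ (m + 2) * h0 := Nat.le_mul_of_pos_left _ (by omega)
        omega⟩
      have h2 : (m + 1) * h0 ≤ b := by
        have : (m + 2) * h0 = (m + 1) * h0 + h0 := by ring
        omega
      have h3 : 1 ≤ b := by
        have : 1 * 1 ≤ (m + 1) * h0 := Nat.mul_le_mul (by omega) hh1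
        omega
      have h4 := ih b (by omega)
      have h5 := dd_comp hw F S p (sk (m + 1)) b h0 hs1 (K1 := ((p : ℝ) ^ ((m + 2) * h0)) ^ (2 * sk (m + 1)) *
        (p : ℝ) ^ (2 * ε * b)) (K2 := C * (p : ℝ) ^ (ε * h0)) (by positivity) (by positivity) h4
        (fun c => step hp hkp hmk (hU Ω inferInstance h0) w F S hw hS hOE h3 h2 c)
      refine h5.mono hw ?_
      have h6 : C * (p : ℝ) ^ (ε * h0) ≤ (p : ℝ) ^ (2 * ε * h0) := by
        have : (p : ℝ) ^ (2 * ε * h0) = (p : ℝ) ^ (ε * h0) * (p : ℝ) ^ (ε * h0) := by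
          rw [← Real.rpow_add hp0]; congr 1; ring
        rw [this]
        exact mul_le_mul_of_nonneg_right hh0 (by positivity)
      have h7 : (p : ℝ) ^ (2 * ε * ((b + h0 : ℕ) : ℝ)) = (p : ℝ) ^ (2 * ε * b) * (p : ℝ) ^ (2 * ε * h0) := by
        rw [← Real.rpow_add hp0]; congr 1; push_cast; ring
      rw [h7, mul_assoc, mul_assoc]
      exact mul_le_mul_of_nonneg_left (mul_le_mul_of_nonneg_left h6 (by positivity)) (by positivity)

end Pool.Agent.U922.MV
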