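import Pool.Agent.U922.MV.A

/-! # Mean values over an interval: units and multiples of `p` -/

set_option autoImplicit false

namespace Pool.Agent.U922.MV

open Finset Pool.Agent.helper132_dc

variable {Ω : Type} [Fintype Ω]

/-- the number of elements in the classes -/
lemma card_cls (q : ℕ) (hq : 1 ≤ q) (S : Finset ℤ) : ∑ c ∈ range q, (cls q S c).card = S.card := by
  have h := cls_split (M := ℕ) 1 q le_rfl hq S 0 (fun _ => 1)
  rw [cls_one] at h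
  simp only [Finset.sum_const, smul_eq_mul, mul_one, one_mul, Nat.cast_one, zero_add] at h
  exact h.symm

/-- for a set of integers prime to `p` in `[1, X]` -/
lemma unit_bound {w : Ω → ℝ} (hw : ∀ ω, 0 ≤ w ω) {F : ℤ → Ω → ℂ} {S : Finset ℤ} {p s B X : ℕ} {K : ℝ}
    (hp : 1 ≤ p) (hs : 1 ≤ s) (hK : 0 ≤ K)
    (hF : ∀ n ∈ S, ∀ ω, ‖F n ω‖ ≤ 1) (hSX : ∀ n ∈ S, 0 < n ∧ n ≤ (X : ℤ)) (hXB : X ≤ p ^ B) (h : DD w F S p s B K) :
    nm w s (Sm S F) ≤ K * ((X : ℝ) ^ s * ∑ ω, w ω) := by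
  have hP : 1 ≤ p ^ B := Nat.one_le_pow _ _ hp
  have hW : 0 ≤ ∑ ω, w ω := Finset.sum_nonneg fun ω _ => hw ω
  have hs0 : (s : ℝ) ≠ 0 := by exact_mod_cast (by omega : s ≠ 0)
  have h1 : ∀ c : ℤ, (cls (p ^ B) S c).card ≤ 1 := by
    intro c
    rw [Finset.card_le_one]
    intro a ha b hb
    rw [mem_cls] at ha hb
    have h2 : ((p ^ B : ℕ) : ℤ) ∣ a - b := by
      have : a - b = (a - c) - (b - c) := by ring
      rw [this]
      exact dvd_sub ha.2 hb.2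
    have h3 := Int.eq_zero_of_abs_lt_dvd h2 (by
      have h4 := hSX a ha.1
      have h5 := hSX b hb.1
      have h6 : (X : ℤ) ≤ ((p ^ B : ℕ) : ℤ) := by exact_mod_cast hXB
      rw [abs_lt]
      constructor <;> omega)
    omega
  have h2 : ∀ c : ℤ, nm w s (Sm (cls (p ^ B) S c) F) ^ ((1 : ℝ) / s) ≤
      ((cls (p ^ B) S c).card : ℝ) * (∑ ω, w ω) ^ ((1 : ℝ) / s) := by
    intro c
    rcases Nat.lt_or_ge 0 (cls (p ^ B) S c).card with h3 | h3
    · have h4 : (cls (p ^ B) S c).card = 1 := by have := h1 c; omega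
      rw [h4, Nat.cast_one, one_mul]
      refine Real.rpow_le_rpow (nm_nonneg hw _ _) ?_ (by positivity)
      unfold nm
      refine Finset.sum_le_sum fun ω _ => ?_
      obtain ⟨n, hn⟩ := Finset.card_eq_one.1 h4
      have hnS : n ∈ S := (mem_cls.1 (by rw [hn]; exact Finset.mem_singleton_self n : n ∈ cls (p ^ B) S c)).1
      unfold Sm
      rw [hn, Finset.sum_singleton]
      have := pow_le_one₀ (n := 2 * s) (norm_nonneg _) (hF n hnS ω)
      exact mul_le_of_le_one_right (hw ω) this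
    · have h4 : cls (p ^ B) S c = ∅ := Finset.card_eq_zero.1 (by omega)
      rw [h4, Finset.card_empty, Nat.cast_zero, zero_mul]
      have h5 : nm w s (Sm (∅ : Finset ℤ) F) = 0 := by
        unfold nm Sm
        simp only [Finset.sum_empty, norm_zero]
        rw [zero_pow (by omega)]
        simp
      rw [h5, Real.zero_rpow (by positivity)]
  have h3 : ∑ c ∈ range (p ^ B), nm w s (Sm (cls (p ^ B) S c) F) ^ ((1 : ℝ) / s) ≤
      (X : ℝ) * (∑ ω, w ω) ^ ((1 : ℝ) / s) := by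
    refine (Finset.sum_le_sum fun (c : ℕ) _ => h2 (c : ℤ)).trans ?_
    rw [← Finset.sum_mul]
    refine mul_le_mul_of_nonneg_right ?_ (Real.rpow_nonneg hW _)
    have h4 : ∑ c ∈ range (p ^ B), ((cls (p ^ B) S c).card : ℝ) = (S.card : ℝ) := by
      exact_mod_cast card_cls (p ^ B) hP S
    rw [h4]
    have h5 : S ⊆ Finset.Icc (1 : ℤ) X := by
      intro n hn
      have := hSX n hn
      rw [Finset.mem_Icc]; omega
    have h6 := Finset.card_le_card h5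
    rw [Int.card_Icc] at h6
    have h7 : ((X : ℤ) + 1 - 1).toNat = X := by omega
    rw [h7] at h6
    exact_mod_cast h6
  unfold DD at h
  refine h.trans (mul_le_mul_of_nonneg_left ?_ hK)
  refine (pow_le_pow_left₀ (Finset.sum_nonneg fun c _ => Real.rpow_nonneg (nm_nonneg hw _ _) _) h3 s).trans
    (le_of_eq ?_)
  rw [mul_pow, one_div, Real.rpow_inv_natCast_pow hW (by omega)]

/-- units in `[1, Y]` -/
noncomputable def un (p Y : ℕ) : Finset ℤ := (Finset.Icc (1 : ℤ) Y).filter (fun n => ¬ (p : ℤ) ∣ n)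

lemma split_one (p Y : ℕ) (hp : 1 ≤ p) (g : ℤ → ℂ) :
    ∑ n ∈ Finset.Icc (1 : ℤ) Y, g n = ∑ n ∈ un p Y, g n + ∑ n ∈ Finset.Icc (1 : ℤ) ((Y / p : ℕ) : ℤ), g (p * n) := by
  have hp0 : (0 : ℤ) < p := by exact_mod_cast hp
  rw [← Finset.sum_filter_add_sum_filter_not (Finset.Icc (1 : ℤ) Y) (fun n => ¬ (p : ℤ) ∣ n)]
  congr 1
  symm
  refine Finset.sum_bij (fun n _ => (p : ℤ) * n) ?_ ?_ ?_ ?_
  · intro n hn
    rw [Finset.mem_Icc] at hn
    rw [Finset.mem_filter, Finset.mem_Icc, not_not]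
    refine ⟨⟨?_, ?_⟩, dvd_mul_right _ _⟩
    · have := Int.mul_pos hp0 (by omega : 0 < n); omega
    · have h1 : (p : ℤ) * n ≤ (p : ℤ) * ((Y / p : ℕ) : ℤ) := mul_le_mul_of_nonneg_left hn.2 hp0.le
      have h2 : (p : ℤ) * ((Y / p : ℕ) : ℤ) ≤ Y := by exact_mod_cast Nat.mul_div_le Y p
      omega
  · intro a _ b _ hab
    exact mul_left_cancel₀ hp0.ne' hab
  · intro b hb
    rw [Finset.mem_filter, Finset.mem_Icc, not_not] at hb
    obtain ⟨⟨hb1, hb2⟩, n, hn⟩ := hb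
    refine ⟨n, ?_, hn.symm⟩
    rw [Finset.mem_Icc]
    subst hn
    constructor
    · by_contra hcon
      have : (p : ℤ) * n ≤ (p : ℤ) * 0 := mul_le_mul_of_nonneg_left (by omega) hp0.le
      omega
    · push_cast
      rw [Int.le_ediv_iff_mul_le hp0, mul_comm]
      exact hb2
  · intro n _; rfl

lemma split_all (p X : ℕ) (hp : 1 ≤ p) (g : ℤ → ℂ) (L : ℕ) :
    ∑ n ∈ Finset.Icc (1 : ℤ) X, g n = ∑ a ∈ range L, ∑ n ∈ un p (X / p ^ a), g ((p : ℤ) ^ a * n) +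
      ∑ n ∈ Finset.Icc (1 : ℤ) ((X / p ^ L : ℕ) : ℤ), g ((p : ℤ) ^ L * n) := by
  induction L with
  | zero => simp
  | succ L ih =>
    have h := split_one p (X / p ^ L) hp (fun n => g ((p : ℤ) ^ L * n))
    have e : ∀ Y : ℕ, ∑ n ∈ Finset.Icc (1 : ℤ) Y, g ((p : ℤ) ^ L * (p * n)) =
        ∑ n ∈ Finset.Icc (1 : ℤ) Y, g ((p : ℤ) ^ (L + 1) * n) := by
      intro Y
      refine Finset.sum_congr rfl fun n _ => ?_
      congr 1
      rw [pow_succ]; ring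
    rw [ih, Finset.sum_range_succ, h, Nat.div_div_eq_div_mul, ← pow_succ, e, add_assoc]

lemma OE.scale {w : Ω → ℝ} {F : ℤ → Ω → ℂ} {m k s X p : ℕ} (hp : 1 ≤ p)
    (h : OE w F (Finset.Icc (1 : ℤ) X) m k s) (a : ℕ) :
    OE w (fun n => F ((p : ℤ) ^ a * n)) (un p (X / p ^ a)) m k s := by
  have hp0 : (0 : ℤ) < (p : ℤ) ^ a := by
    have : (0 : ℤ) < p := by exact_mod_cast hp
    positivity
  have hmem : ∀ n ∈ un p (X / p ^ a), (p : ℤ) ^ a * n ∈ Finset.Icc (1 : ℤ) X := by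
    intro n hn
    unfold un at hn
    rw [Finset.mem_filter, Finset.mem_Icc] at hn
    rw [Finset.mem_Icc]
    constructor
    · have := Int.mul_pos hp0 (by omega : 0 < n); omega
    · have h1 : (p : ℤ) ^ a * n ≤ (p : ℤ) ^ a * ((X / p ^ a : ℕ) : ℤ) := mul_le_mul_of_nonneg_left hn.1.2 hp0.le
      have h2 : (p : ℤ) ^ a * ((X / p ^ a : ℕ) : ℤ) ≤ X := by exact_mod_cast Nat.mul_div_le X (p ^ a)
      omega
  intro x y hx hy hn
  refine h (fun i => (p : ℤ) ^ a * x i) (fun i => (p : ℤ) ^ a * y i) (fun i => hmem _ (hx i))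
    (fun i => hmem _ (hy i)) ?_
  intro hE
  apply hn
  have hsc : ∀ j : ℕ, ∑ i : Fin s, ((p : ℤ) ^ a * x i) ^ j = ∑ i : Fin s, ((p : ℤ) ^ a * y i) ^ j →
      ∑ i : Fin s, x i ^ j = ∑ i : Fin s, y i ^ j := by
    intro j hj
    have e : ∀ u : Fin s → ℤ, ∑ i : Fin s, ((p : ℤ) ^ a * u i) ^ j = ((p : ℤ) ^ a) ^ j * ∑ i : Fin s, u i ^ j := by
      intro u
      rw [Finset.mul_sum]
      refine Finset.sum_congr rfl fun i _ => ?_
      rw [mul_pow]
    rw [e, e] at hj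
    exact mul_left_cancel₀ (pow_ne_zero _ hp0.ne') hj
  exact ⟨fun j hj1 hj2 => hsc j (hE.1 j hj1 hj2), hsc k hE.2⟩

/-- **the mean value over `[1, X]`** -/
theorem mean (m k : ℕ) (hmk : m + 1 ≤ k) (δ : ℝ) (hδ : 0 < δ) :
    ∃ C : ℝ, 1 ≤ C ∧ ∀ (Ω : Type) (_ : Fintype Ω) (w : Ω → ℝ) (F : ℤ → Ω → ℂ) (X : ℕ), 1 ≤ X →
      (∀ ω, 0 ≤ w ω) → (∀ n ω, ‖F n ω‖ ≤ 1) → OE w F (Finset.Icc (1 : ℤ) X) m k (sk (m + 1)) →
      nm w (sk (m + 1)) (Sm (Finset.Icc (1 : ℤ) X) F) ≤ C * ((X : ℝ) ^ ((sk (m + 1) : ℝ) + δ) * ∑ ω, w ω) := by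
  obtain ⟨s, hs⟩ : ∃ s, s = sk (m + 1) := ⟨_, rfl⟩
  have hs1 : 1 ≤ s := by rw [hs]; exact sk_pos (m + 1) (by omega)
  obtain ⟨ε, hεd⟩ : ∃ ε : ℝ, ε = δ / 4 := ⟨_, rfl⟩
  have hε : 0 < ε := by rw [hεd]; positivity
  obtain ⟨p0, hp0⟩ := dec_main (m + 1) (by omega) ε hε
  obtain ⟨p, hpp, hp⟩ := Nat.exists_infinite_primes (max p0 (k + 3))
  obtain ⟨C1, hC1, hU⟩ := hp0 p hp (le_trans (le_max_left _ _) hpp)
  have hkp : k + 3 ≤ p := le_trans (le_max_right _ _) hpp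
  obtain ⟨C', hC', hD⟩ := dd_main p m k hp (by omega) hmk C1 ε hε hC1 hU
  have hpR3 : (3 : ℝ) ≤ p := by exact_mod_cast (by omega : 3 ≤ p)
  have hpR0 : (0 : ℝ) < p := by linarith
  obtain ⟨η, hη⟩ : ∃ η : ℝ, η = δ / (2 * (2 * (s : ℝ) + 1)) := ⟨_, rfl⟩
  have hs0 : (1 : ℝ) ≤ s := by exact_mod_cast hs1
  have hη0 : 0 < η := by rw [hη]; positivity
  refine ⟨(1 + 1 / η) ^ (2 * s + 1) * (C' * (p : ℝ) ^ (2 * ε)), ?_, ?_⟩
  · have h1 : (1 : ℝ) ≤ (1 + 1 / η) ^ (2 * s + 1) := one_le_pow₀ (by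
      have : 0 < 1 / η := by positivity
      linarith)
    have h2 : (1 : ℝ) ≤ (p : ℝ) ^ (2 * ε) := Real.one_le_rpow (by linarith) (by positivity)
    have h3 : (1 : ℝ) ≤ C' * (p : ℝ) ^ (2 * ε) := by nlinarith
    nlinarith
  intro Ω _ w F X hX hw hF hOE
  rw [← hs] at hOE hD ⊢
  have hXR : (1 : ℝ) ≤ X := by exact_mod_cast hX
  have hX0 : (0 : ℝ) < X := by linarith
  have hW : 0 ≤ ∑ ω, w ω := Finset.sum_nonneg fun ω _ => hw ω
  obtain ⟨L, hL⟩ : ∃ L, L = Nat.log p X + 1 := ⟨_, rfl⟩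
  have hL1 : 1 ≤ L := by omega
  have hXL : X / p ^ L = 0 := Nat.div_eq_of_lt (by rw [hL]; exact Nat.lt_pow_succ_log_self hp.one_lt X)
  -- the pieces
  have hpiece : ∀ a : ℕ, nm w s (Sm (un p (X / p ^ a)) (fun n => F ((p : ℤ) ^ a * n))) ≤
      (C' * (p : ℝ) ^ (2 * ε) * (X : ℝ) ^ (2 * ε)) * ((X : ℝ) ^ s * ∑ ω, w ω) := by
    intro a
    obtain ⟨B, hB⟩ : ∃ B, B = Nat.clog p X := ⟨_, rfl⟩
    have hXB : X ≤ p ^ B := by rw [hB]; exact Nat.le_pow_clog hp.one_lt X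
    have hBX : p ^ B ≤ p * X := by
      rcases Nat.lt_or_ge 1 X with h | h
      · have h1 := Nat.pow_pred_clog_lt_self hp.one_lt h
        rw [← hB] at h1
        have hB1 : 1 ≤ B := by
          rw [hB]; exact Nat.clog_pos hp.one_lt h
        have h2 : p ^ B = p * p ^ B.pred := by
          rw [← pow_succ']; congr 1; rw [Nat.pred_eq_sub_one]; omega
        rw [h2]
        exact Nat.mul_le_mul_left _ h1.le
      · have : X = 1 := by omega
        rw [hB, this, Nat.clog_one_right, pow_zero, mul_one]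
        exact hp.one_lt.le
    have h1 := hD Ω inferInstance w (fun n => F ((p : ℤ) ^ a * n)) (un p (X / p ^ a)) hw (by
      intro n hn
      unfold un at hn
      exact (Finset.mem_filter.1 hn).2) (hOE.scale hp.one_lt.le a) B
    have h2 := unit_bound (X := X) hw hp.one_lt.le hs1 (by positivity) (fun n _ ω => hF _ ω) (by
      intro n hn
      unfold un at hn
      rw [Finset.mem_filter, Finset.mem_Icc] at hn
      have h3 : ((X / p ^ a : ℕ) : ℤ) ≤ X := by exact_mod_cast Nat.div_le_self X (p ^ a)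
      omega) hXB h1
    refine h2.trans (mul_le_mul_of_nonneg_right ?_ (by positivity))
    rw [mul_assoc C']
    refine mul_le_mul_of_nonneg_left ?_ (by linarith)
    rw [← Real.mul_rpow hpR0.le hX0.le]
    have h3 : (p : ℝ) ^ (2 * ε * B) = ((p : ℝ) ^ B) ^ (2 * ε) := by
      rw [← Real.rpow_natCast, ← Real.rpow_mul hpR0.le]
      congr 1; ring
    rw [h3]
    exact Real.rpow_le_rpow (by positivity) (by exact_mod_cast hBX) (by positivity)
  have hpt : ∀ ω, ‖Sm (Finset.Icc (1 : ℤ) X) F ω‖ ^ (2 * s) ≤ (L : ℝ) ^ (2 * s) *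
      ∑ a ∈ range L, ‖Sm (un p (X / p ^ a)) (fun n => F ((p : ℤ) ^ a * n)) ω‖ ^ (2 * s) := by
    intro ω
    have h1 : Sm (Finset.Icc (1 : ℤ) X) F ω =
        ∑ a ∈ range L, Sm (un p (X / p ^ a)) (fun n => F ((p : ℤ) ^ a * n)) ω := by
      unfold Sm
      rw [split_all p X hp.one_lt.le (fun n => F n ω) L, hXL]
      simp
    obtain ⟨e, he, h2⟩ := exists_large L hL1 (fun a => Sm (un p (X / p ^ a)) (fun n => F ((p : ℤ) ^ a * n)) ω)
    rw [← h1] at h2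
    refine (pow_le_pow_left₀ (norm_nonneg _) h2 _).trans ?_
    rw [mul_pow]
    refine mul_le_mul_of_nonneg_left ?_ (by positivity)
    exact Finset.single_le_sum (f := fun a : ℕ => ‖Sm (un p (X / p ^ a)) (fun n => F ((p : ℤ) ^ a * n)) ω‖ ^ (2 * s))
      (fun c _ => by positivity) (Finset.mem_range.2 he)
  have h3 : nm w s (Sm (Finset.Icc (1 : ℤ) X) F) ≤ (L : ℝ) ^ (2 * s) *
      ∑ a ∈ range L, nm w s (Sm (un p (X / p ^ a)) (fun n => F ((p : ℤ) ^ a * n))) := by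
    unfold nm
    refine (Finset.sum_le_sum fun ω _ => mul_le_mul_of_nonneg_left (hpt ω) (hw ω)).trans (le_of_eq ?_)
    rw [Finset.sum_comm, Finset.mul_sum]
    refine Finset.sum_congr rfl fun ω _ => ?_
    rw [← Finset.mul_sum]; ring
  have h4 : nm w s (Sm (Finset.Icc (1 : ℤ) X) F) ≤ (L : ℝ) ^ (2 * s + 1) *
      ((C' * (p : ℝ) ^ (2 * ε) * (X : ℝ) ^ (2 * ε)) * ((X : ℝ) ^ s * ∑ ω, w ω)) := by
    refine h3.trans ?_
    rw [pow_succ, mul_assoc]
    refine mul_le_mul_of_nonneg_left ?_ (by positivity)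
    refine (Finset.sum_le_sum fun a _ => hpiece a).trans (le_of_eq ?_)
    rw [Finset.sum_const, Finset.card_range, nsmul_eq_mul]
  have hLb : (L : ℝ) ≤ (1 + 1 / η) * (X : ℝ) ^ η := by
    have h5 : (1 : ℝ) ≤ (X : ℝ) ^ η := Real.one_le_rpow hXR hη0.le
    have h6 : ((Nat.log p X : ℕ) : ℝ) ≤ Real.log X := by
      have h7 : (p : ℝ) ^ (Nat.log p X) ≤ X := by exact_mod_cast Nat.pow_log_le_self p (by omega : X ≠ 0)
      have h8 := Real.log_le_log (by positivity) h7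
      rw [Real.log_pow] at h8
      have h9 : (1 : ℝ) ≤ Real.log p := by
        rw [Real.le_log_iff_exp_le hpR0]
        exact (Real.exp_one_lt_d9.le.trans (by norm_num)).trans hpR3
      have h10 : (0 : ℝ) ≤ ((Nat.log p X : ℕ) : ℝ) := Nat.cast_nonneg _
      nlinarith
    have h7 : Real.log X ≤ (X : ℝ) ^ η / η := Real.log_le_rpow_div hX0.le hη0
    have h8 : (L : ℝ) = (Nat.log p X : ℕ) + 1 := by rw [hL]; push_cast; ring
    rw [h8]
    have h9 : (1 + 1 / η) * (X : ℝ) ^ η = (X : ℝ) ^ η + (X : ℝ) ^ η / η := by ring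
    rw [h9]
    linarith
  have h5 : (L : ℝ) ^ (2 * s + 1) ≤ (1 + 1 / η) ^ (2 * s + 1) * (X : ℝ) ^ (δ / 2) := by
    refine (pow_le_pow_left₀ (Nat.cast_nonneg _) hLb _).trans (le_of_eq ?_)
    rw [mul_pow]
    congr 1
    rw [← Real.rpow_natCast, ← Real.rpow_mul hX0.le]
    congr 1
    rw [hη]
    push_cast
    field_simp
  refine h4.trans ?_
  have h6 : (X : ℝ) ^ ((s : ℝ) + δ) = (X : ℝ) ^ (δ / 2) * ((X : ℝ) ^ (2 * ε) * (X : ℝ) ^ s) := by
    rw [← Real.rpow_natCast, ← Real.rpow_add hX0, ← Real.rpow_add hX0]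
    congr 1
    rw [hεd]; ring
  rw [h6]
  refine (mul_le_mul_of_nonneg_right h5 (by positivity)).trans (le_of_eq ?_)
  ring

end Pool.Agent.U922.MV
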