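import Pool.Agent.U922.MV.B
import Pool.Agent.helper132_ec.E1
import Pool.Agent.TH181.MW.Mom

/-! # The number of solutions and the supremum over the lower-order terms -/

set_option autoImplicit false

open Finset MeasureTheory

namespace Pool.Agent.U922.MV

open Pool.Agent.helper132_dc Pool.Agent.helper132_poly Pool.Agent.helper132_ec
open Pool.Agent.W928.MW (e e_add e_norm e_sub_re e_cont)
open Pool.Agent.TH181.MW (tup e_sum int_cos)

/-- the exponents -/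
def phi (m k : ℕ) (n : ℤ) : Fin (m + 1) → ℤ := fun j => if (j : ℕ) < m then n ^ ((j : ℕ) + 1) else n ^ k

lemma phi_sum {m k s : ℕ} (x : Fin s → ℤ) (j : Fin (m + 1)) :
    (∑ i, phi m k (x i)) j = if (j : ℕ) < m then ∑ i, x i ^ ((j : ℕ) + 1) else ∑ i, x i ^ k := by
  rw [Finset.sum_apply]
  unfold phi
  split_ifs <;> rfl

lemma phi_ex {m k s : ℕ} {x y : Fin s → ℤ} (h : ∑ i, phi m k (x i) = ∑ i, phi m k (y i)) : EX m k s x y := by
  constructor
  · intro j hj1 hjm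
    have h1 := congrFun h ⟨j - 1, by omega⟩
    rw [phi_sum, phi_sum] at h1
    simp only at h1
    rw [if_pos (by omega), if_pos (by omega)] at h1
    have e2 : j - 1 + 1 = j := by omega
    rwa [e2] at h1
  · have h1 := congrFun h ⟨m, by omega⟩
    rw [phi_sum, phi_sum] at h1
    simpa using h1

/-- the exponential sum over the grid -/
noncomputable def FF (m k N : ℕ) (n : ℤ) (ω : ↥(gr (m + 1) N)) : ℂ := eg N ω.1 (phi m k n)

lemma ff_orth (m k s N : ℕ) (hN : 1 ≤ N) (S : Finset ℤ)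
    (hb : ∀ x y : Fin s → ℤ, (∀ i, x i ∈ S) → (∀ i, y i ∈ S) → ∀ j,
      |(∑ i, phi m k (x i) + -∑ i, phi m k (y i)) j| < N) :
    OE (fun _ : ↥(gr (m + 1) N) => (1 : ℝ)) (FF m k N) S m k s := by
  intro x y hx hy hn
  have e1 : ∀ ω : ↥(gr (m + 1) N), ((1 : ℝ) : ℂ) * ((∏ i, FF m k N (x i) ω) * ∏ i, (starRingEnd ℂ) (FF m k N (y i) ω)) =
      eg N ω.1 (∑ i, phi m k (x i) + -∑ i, phi m k (y i)) := by
    intro ω
    rw [eg_add, eg_neg]
    unfold FF
    rw [eg_sum, eg_sum, map_prod]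
    push_cast
    rw [one_mul]
  rw [Finset.sum_congr rfl fun ω _ => e1 ω]
  rw [Finset.sum_coe_sort (gr (m + 1) N) (fun a => eg N a (∑ i, phi m k (x i) + -∑ i, phi m k (y i)))]
  rw [orth1 N hN _ (hb x y hx hy), if_neg]
  intro h0
  apply hn
  exact phi_ex (add_neg_eq_zero.1 h0)

/-- number of solutions of the system of degrees `1, ..., m` and `k` -/
def JV (s m k N : ℕ) : ℕ := (((tup s N) ×ˢ (tup s N)).filter
  (fun z => (∀ j : Fin m, ∑ i, z.1 i ^ ((j : ℕ) + 1) = ∑ i, z.2 i ^ ((j : ℕ) + 1)) ∧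
    ∑ i, z.1 i ^ k = ∑ i, z.2 i ^ k)).card

/-- **the mean value theorem** -/
theorem jv_bound (m k : ℕ) (hmk : m + 1 ≤ k) (δ : ℝ) (hδ : 0 < δ) :
    ∃ C : ℝ, 1 ≤ C ∧ ∀ N : ℕ, 1 ≤ N → (JV (sk (m + 1)) m k N : ℝ) ≤ C * (N : ℝ) ^ ((sk (m + 1) : ℝ) + δ) := by
  classical
  obtain ⟨C, hC, hM⟩ := mean m k hmk δ hδ
  refine ⟨C, hC, fun N hN => ?_⟩
  obtain ⟨s, hs⟩ : ∃ s, s = sk (m + 1) := ⟨_, rfl⟩
  rw [← hs] at hM ⊢
  obtain ⟨I, hI⟩ : ∃ I : Finset (Fin s → ℤ), I = Fintype.piFinset (fun _ : Fin s => Finset.Icc (1 : ℤ) N) := ⟨_, rfl⟩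
  have hmem : ∀ x : Fin s → ℤ, x ∈ I ↔ ∀ i, x i ∈ Finset.Icc (1 : ℤ) N := by
    intro x; rw [hI, Fintype.mem_piFinset]
  obtain ⟨N0, hN0⟩ := exists_N (I ×ˢ I) (fun z : (Fin s → ℤ) × (Fin s → ℤ) => ∑ i, phi m k (z.1 i) + -∑ i, phi m k (z.2 i))
  obtain ⟨M, hMd⟩ : ∃ M, M = N0 + 1 := ⟨_, rfl⟩
  have hM1 : 1 ≤ M := by omega
  have hb := hN0 M (by omega)
  have hOE := ff_orth m k s M hM1 (Finset.Icc (1 : ℤ) N) (by
    intro x y hx hy j
    exact hb (x, y) (Finset.mem_product.2 ⟨(hmem x).2 hx, (hmem y).2 hy⟩) j)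
  have h1 := hM ↥(gr (m + 1) M) inferInstance (fun _ => (1 : ℝ)) (FF m k M) N hN (fun _ => zero_le_one)
    (fun n ω => (norm_eg _ _ _).le) hOE
  have hMp : (0 : ℝ) < (M : ℝ) ^ (m + 1) := by
    have : (0 : ℝ) < M := by exact_mod_cast hM1
    positivity
  have h2 : ∑ _ω : ↥(gr (m + 1) M), (1 : ℝ) = (M : ℝ) ^ (m + 1) := by
    rw [Finset.sum_const, Finset.card_univ, Fintype.card_coe, card_gr]
    simp
  rw [h2] at h1
  have h3 : nm (fun _ : ↥(gr (m + 1) M) => (1 : ℝ)) s (Sm (Finset.Icc (1 : ℤ) N) (FF m k M)) =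
      (M : ℝ) ^ (m + 1) * (((I ×ˢ I).filter (fun w => (∑ i, phi m k (w.1 i)) = ∑ i, phi m k (w.2 i))).card : ℝ) := by
    have h4 := moment_Ev (k := m + 1) M hM1 I (fun u : Fin s → ℤ => ∑ i, phi m k (u i)) (by
      intro x hx y hy j
      have := hb (x, y) (Finset.mem_product.2 ⟨hx, hy⟩) j
      simpa [sub_eq_add_neg] using this)
    unfold Ev at h4
    rw [div_eq_iff hMp.ne'] at h4
    rw [mul_comm, ← h4]
    unfold nm
    rw [← Finset.sum_coe_sort (gr (m + 1) M)]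
    refine Finset.sum_congr rfl fun ω _ => ?_
    rw [one_mul]
    have h5 : Sm (Finset.Icc (1 : ℤ) N) (FF m k M) ω = Sg M (Finset.Icc (1 : ℤ) N) (phi m k) ω.1 := rfl
    rw [h5, mul_comm 2 s, pow_mul, ← norm_pow, Sg_pow, ← hI]
  rw [h3] at h1
  have h4 : (((I ×ˢ I).filter (fun w => (∑ i, phi m k (w.1 i)) = ∑ i, phi m k (w.2 i))).card : ℝ) ≤
      C * (N : ℝ) ^ ((s : ℝ) + δ) := by
    refine le_of_mul_le_mul_left (h1.trans (le_of_eq ?_)) hMp
    ring
  refine le_trans ?_ h4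
  have h5 : JV s m k N ≤ ((I ×ˢ I).filter (fun w => (∑ i, phi m k (w.1 i)) = ∑ i, phi m k (w.2 i))).card := by
    unfold JV
    refine Finset.card_le_card_of_injOn (fun z => (fun i => ((z.1 i : ℕ) : ℤ), fun i => ((z.2 i : ℕ) : ℤ))) ?_ ?_
    · intro z hz
      rw [Finset.mem_coe, Finset.mem_filter, Finset.mem_product] at hz
      rw [Finset.mem_coe, Finset.mem_filter, Finset.mem_product, hmem, hmem]
      obtain ⟨⟨hz1, hz2⟩, hz3, hz4⟩ := hz
      unfold tup at hz1 hz2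
      rw [Fintype.mem_piFinset] at hz1 hz2
      refine ⟨⟨fun i => ?_, fun i => ?_⟩, ?_⟩
      · have := Finset.mem_Icc.1 (hz1 i)
        rw [Finset.mem_Icc]
        show (1 : ℤ) ≤ ((z.1 i : ℕ) : ℤ) ∧ ((z.1 i : ℕ) : ℤ) ≤ N
        exact ⟨by exact_mod_cast this.1, by exact_mod_cast this.2⟩
      · have := Finset.mem_Icc.1 (hz2 i)
        rw [Finset.mem_Icc]
        show (1 : ℤ) ≤ ((z.2 i : ℕ) : ℤ) ∧ ((z.2 i : ℕ) : ℤ) ≤ N
        exact ⟨by exact_mod_cast this.1, by exact_mod_cast this.2⟩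
      · funext j
        rw [phi_sum, phi_sum]
        split_ifs with hj
        · have := hz3 ⟨j, hj⟩
          simp only at this ⊢
          exact_mod_cast this
        · simp only
          exact_mod_cast hz4
    · intro z _ z' _ h
      have h1 := congrArg Prod.fst h
      have h2 := congrArg Prod.snd h
      refine Prod.ext (funext fun i => ?_) (funext fun i => ?_)
      · have := congrFun h1 i
        simp only at this
        exact_mod_cast this
      · have := congrFun h2 i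
        simp only at this
        exact_mod_cast this
  exact_mod_cast h5

end Pool.Agent.U922.MV
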