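import Pool.Agent.U922.MV.C
import Pool.Agent.TH181.MW.Max

/-! # The supremum over the lower-order terms -/

set_option autoImplicit false

open Finset MeasureTheory

namespace Pool.Agent.U922.MV

open Pool.Agent.W928.MW (e e_add e_norm e_sub_re e_cont e_lip)
open Pool.Agent.TH181.MW (tup e_sum int_cos max_le)

/-- the lower-order terms -/
noncomputable def lo (m : ℕ) (c : Fin m → ℝ) (n : ℝ) : ℝ := ∑ j : Fin m, c j * n ^ ((j : ℕ) + 1)

/-- the Weyl sum with lower-order terms -/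
noncomputable def sp (k m N : ℕ) (t : ℝ) (c : Fin m → ℝ) : ℂ :=
  ∑ n ∈ Icc 1 N, e (t * (n : ℝ) ^ k + lo m c n)

/-- the power sums of degrees `1, ..., m` -/
def pw (s m : ℕ) (z : Fin s → ℕ) : Fin m → ℕ := fun j => ∑ i, z i ^ ((j : ℕ) + 1)

/-- their range -/
def VV (s m N : ℕ) : Finset (Fin m → ℕ) := Fintype.piFinset (fun j : Fin m => range (s * N ^ ((j : ℕ) + 1) + 1))

/-- tuples with given power sums -/
def pv (s m N : ℕ) (v : Fin m → ℕ) : Finset (Fin s → ℕ) := (tup s N).filter (fun z => pw s m z = v)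

noncomputable def pp (s k m N : ℕ) (v : Fin m → ℕ) (t : ℝ) : ℂ :=
  ∑ z ∈ pv s m N v, e (t * ((∑ i, z i ^ k : ℕ) : ℝ))

noncomputable def QV (s k m N : ℕ) (t : ℝ) : ℝ := ∑ v ∈ VV s m N, ‖pp s k m N v t‖ ^ 2

theorem pw_mem (s m N : ℕ) (z : Fin s → ℕ) (hz : z ∈ tup s N) : pw s m z ∈ VV s m N := by
  unfold VV
  rw [Fintype.mem_piFinset]
  intro j
  rw [Finset.mem_range]
  unfold tup at hz
  rw [Fintype.mem_piFinset] at hz
  have : pw s m z j ≤ s * N ^ ((j : ℕ) + 1) := by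
    unfold pw
    calc ∑ i, z i ^ ((j : ℕ) + 1) ≤ ∑ _i : Fin s, N ^ ((j : ℕ) + 1) :=
          Finset.sum_le_sum (fun i _ => Nat.pow_le_pow_left (Finset.mem_Icc.mp (hz i)).2 _)
      _ = s * N ^ ((j : ℕ) + 1) := by simp
  omega

theorem sp_pow (s k m N : ℕ) (t : ℝ) (c : Fin m → ℝ) :
    sp k m N t c ^ s = ∑ v ∈ VV s m N, e (∑ j, c j * v j) * pp s k m N v t := by
  have h1 : sp k m N t c ^ s = ∑ z ∈ tup s N, e (∑ j, c j * (pw s m z j : ℝ)) * e (t * ((∑ i, z i ^ k : ℕ) : ℝ)) := by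
    unfold sp tup
    rw [Finset.sum_pow']
    apply Finset.sum_congr rfl
    intro z _
    rw [← e_sum, ← e_add]
    congr 1
    unfold lo pw
    rw [Finset.sum_add_distrib, Finset.sum_comm, add_comm]
    congr 1
    · refine Finset.sum_congr rfl fun j _ => ?_
      push_cast
      rw [Finset.mul_sum]
    · push_cast
      rw [Finset.mul_sum]
  rw [h1, ← Finset.sum_fiberwise_of_maps_to (s := tup s N) (t := VV s m N)
    (g := fun z : Fin s → ℕ => pw s m z) (fun z hz => pw_mem s m N z hz)]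
  apply Finset.sum_congr rfl
  intro v _
  unfold pp pv
  rw [Finset.mul_sum]
  apply Finset.sum_congr rfl
  intro z hz
  rw [Finset.mem_filter] at hz
  rw [hz.2]

theorem supv (s k m N : ℕ) (t : ℝ) (c : Fin m → ℝ) :
    ‖sp k m N t c‖ ^ (2 * s) ≤ ((VV s m N).card : ℝ) * QV s k m N t := by
  have h1 : ‖sp k m N t c‖ ^ (2 * s) = ‖sp k m N t c ^ s‖ ^ 2 := by
    rw [norm_pow, ← pow_mul, mul_comm]
  rw [h1, sp_pow]
  have h2 : ‖∑ v ∈ VV s m N, e (∑ j, c j * v j) * pp s k m N v t‖ ≤ ∑ v ∈ VV s m N, ‖pp s k m N v t‖ := by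
    refine (norm_sum_le _ _).trans (le_of_eq ?_)
    apply Finset.sum_congr rfl
    intro v _
    rw [norm_mul, e_norm, one_mul]
  have h3 := sq_sum_le_card_mul_sum_sq (s := VV s m N) (f := fun v => ‖pp s k m N v t‖)
  refine le_trans ?_ h3
  exact pow_le_pow_left₀ (norm_nonneg _) h2 2

theorem pp_sq (s k m N : ℕ) (v : Fin m → ℕ) (t : ℝ) : ‖pp s k m N v t‖ ^ 2 = ∑ z ∈ pv s m N v, ∑ w ∈ pv s m N v,
    Real.cos (2 * Real.pi * (t * (((∑ i, z i ^ k : ℕ) : ℝ) - ((∑ i, w i ^ k : ℕ) : ℝ)))) := by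
  have h1 : ((‖pp s k m N v t‖ ^ 2 : ℝ) : ℂ) = pp s k m N v t * (starRingEnd ℂ) (pp s k m N v t) := by
    rw [Complex.mul_conj, Complex.normSq_eq_norm_sq]
  have h2 : ‖pp s k m N v t‖ ^ 2 = (pp s k m N v t * (starRingEnd ℂ) (pp s k m N v t)).re := by
    rw [← h1, Complex.ofReal_re]
  rw [h2]
  unfold pp
  rw [map_sum, Finset.sum_mul_sum, Complex.re_sum]
  apply Finset.sum_congr rfl
  intro z _
  rw [Complex.re_sum]
  apply Finset.sum_congr rfl
  intro w _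
  rw [e_sub_re]
  congr 1
  ring

theorem pp_cont (s k m N : ℕ) (v : Fin m → ℕ) : Continuous (pp s k m N v) := by
  unfold pp
  refine continuous_finsetSum _ (fun z _ => ?_)
  exact e_cont.comp (by fun_prop)

theorem QV_cont (s k m N : ℕ) : Continuous (QV s k m N) := by
  unfold QV
  refine continuous_finsetSum _ (fun v _ => ?_)
  exact ((pp_cont s k m N v).norm).pow 2

theorem QV_nonneg (s k m N : ℕ) (t : ℝ) : 0 ≤ QV s k m N t := by
  unfold QV
  positivity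

theorem int_QV (s k m N : ℕ) (u v : ℤ) : ∫ t in (u : ℝ)..(v : ℝ), QV s k m N t = ((v : ℝ) - u) * (JV s m k N : ℝ) := by
  unfold QV
  rw [intervalIntegral.integral_finsetSum]
  · have h1 : ∀ a ∈ VV s m N, ∫ t in (u : ℝ)..(v : ℝ), ‖pp s k m N a t‖ ^ 2 =
        ((v : ℝ) - u) * ((((pv s m N a) ×ˢ (pv s m N a)).filter (fun z => ∑ i, z.1 i ^ k = ∑ i, z.2 i ^ k)).card : ℝ) := by
      intro a _
      have h2 : ∀ t : ℝ, ‖pp s k m N a t‖ ^ 2 = ∑ z ∈ (pv s m N a) ×ˢ (pv s m N a),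
          Real.cos (2 * Real.pi * (t * ((((∑ i, z.1 i ^ k : ℕ) : ℤ) - ((∑ i, z.2 i ^ k : ℕ) : ℤ) : ℤ) : ℝ))) := by
        intro t
        rw [pp_sq, ← Finset.sum_product']
        apply Finset.sum_congr rfl
        intro z _
        congr 3
        push_cast
        ring
      simp_rw [h2]
      rw [intervalIntegral.integral_finsetSum]
      · simp_rw [int_cos]
        rw [Finset.sum_ite, Finset.sum_const_zero, add_zero, Finset.sum_const, nsmul_eq_mul, mul_comm]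
        congr 3
        apply Finset.filter_congr
        intro z _
        constructor
        · intro h; have := sub_eq_zero.mp h; exact_mod_cast this
        · intro h; rw [h]; simp
      · intro z _
        apply Continuous.intervalIntegrable
        fun_prop
    rw [Finset.sum_congr rfl h1, ← Finset.mul_sum]
    congr 1
    unfold JV
    rw [Finset.card_eq_sum_card_fiberwise (f := fun z : (Fin s → ℕ) × (Fin s → ℕ) => pw s m z.1)
      (t := VV s m N)]
    · push_cast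
      apply Finset.sum_congr rfl
      intro a _
      congr 2
      ext z
      simp only [Finset.mem_filter, Finset.mem_product, pv]
      constructor
      · rintro ⟨⟨⟨a1, a2⟩, b1, b2⟩, c⟩
        refine ⟨⟨⟨a1, b1⟩, fun j => ?_, c⟩, a2⟩
        exact congrFun (a2.trans b2.symm) j
      · rintro ⟨⟨⟨a1, b1⟩, d, c⟩, a2⟩
        refine ⟨⟨⟨a1, a2⟩, b1, ?_⟩, c⟩
        have : pw s m z.1 = pw s m z.2 := funext d
        exact this.symm.trans a2
    · intro z hz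
      have hz' := (Finset.mem_filter.mp hz).1
      rw [Finset.mem_product] at hz'
      exact pw_mem s m N z.1 hz'.1
  · intro a _
    exact (((pp_cont s k m N a).norm).pow 2).intervalIntegrable _ _

theorem meas_v (s k m N : ℕ) (u v : ℤ) (lam : ℝ) (huv : u ≤ v) (hN : 1 ≤ N) (hl : 0 < lam) :
    volume {t : ℝ | t ∈ Set.Icc (u : ℝ) (v : ℝ) ∧ ∃ c : Fin m → ℝ, lam ≤ ‖sp k m N t c‖} ≤
      ENNReal.ofReal (((VV s m N).card : ℝ) * (((v : ℝ) - u) * (JV s m k N : ℝ)) / lam ^ (2 * s)) := by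
  have hV1 : 0 < ((VV s m N).card : ℝ) := by
    have : 0 < (VV s m N).card := by
      unfold VV
      rw [Fintype.card_piFinset]
      exact Finset.prod_pos fun j _ => by rw [Finset.card_range]; omega
    exact_mod_cast this
  obtain ⟨V, hV⟩ : ∃ V : ℝ, V = ((VV s m N).card : ℝ) := ⟨_, rfl⟩
  rw [← hV] at hV1 ⊢
  set ρ : ℝ := lam ^ (2 * s) / V with hρ
  have huv' : (u : ℝ) ≤ (v : ℝ) := by exact_mod_cast huv
  have hρ0 : 0 < ρ := by positivity
  have hsub : {t : ℝ | t ∈ Set.Icc (u : ℝ) (v : ℝ) ∧ ∃ c : Fin m → ℝ, lam ≤ ‖sp k m N t c‖} ⊆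
      {t : ℝ | ρ ≤ QV s k m N t} ∩ Set.Icc (u : ℝ) (v : ℝ) := by
    rintro t ⟨ht, c, hc⟩
    refine ⟨?_, ht⟩
    have h1 := supv s k m N t c
    rw [← hV] at h1
    have h2 : lam ^ (2 * s) ≤ ‖sp k m N t c‖ ^ (2 * s) := pow_le_pow_left₀ hl.le hc (2 * s)
    change ρ ≤ QV s k m N t
    rw [hρ, div_le_iff₀ hV1]
    linarith
  have hmeas : MeasurableSet {t : ℝ | ρ ≤ QV s k m N t} :=
    (isClosed_le continuous_const (QV_cont s k m N)).measurableSet
  have hint : Integrable (QV s k m N) (volume.restrict (Set.Icc (u : ℝ) (v : ℝ))) :=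
    ((QV_cont s k m N).continuousOn).integrableOn_Icc
  have h3 := mul_meas_ge_le_integral_of_nonneg (μ := volume.restrict (Set.Icc (u : ℝ) (v : ℝ))) (f := QV s k m N)
    (Filter.Eventually.of_forall (QV_nonneg s k m N)) hint ρ
  have h4 : ∫ x, QV s k m N x ∂(volume.restrict (Set.Icc (u : ℝ) (v : ℝ))) = ∫ t in (u : ℝ)..(v : ℝ), QV s k m N t := by
    rw [intervalIntegral.integral_of_le huv', integral_Icc_eq_integral_Ioc]
  rw [h4, int_QV] at h3
  have h5 : (volume.restrict (Set.Icc (u : ℝ) (v : ℝ))).real {t : ℝ | ρ ≤ QV s k m N t} =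
      (volume ({t : ℝ | ρ ≤ QV s k m N t} ∩ Set.Icc (u : ℝ) (v : ℝ))).toReal := by
    unfold Measure.real
    rw [Measure.restrict_apply hmeas]
  rw [h5] at h3
  have hfin : volume ({t : ℝ | ρ ≤ QV s k m N t} ∩ Set.Icc (u : ℝ) (v : ℝ)) ≠ ⊤ := by
    refine ne_top_of_le_ne_top ?_ (measure_mono Set.inter_subset_right)
    rw [Real.volume_Icc]
    exact ENNReal.ofReal_ne_top
  refine (measure_mono hsub).trans ?_
  rw [← ENNReal.ofReal_toReal hfin]
  apply ENNReal.ofReal_le_ofReal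
  have h6 : (volume ({t : ℝ | ρ ≤ QV s k m N t} ∩ Set.Icc (u : ℝ) (v : ℝ))).toReal ≤
      (((v : ℝ) - u) * (JV s m k N : ℝ)) / ρ := by
    rw [le_div_iff₀ hρ0]
    linarith [h3, mul_comm ρ (volume ({t : ℝ | ρ ≤ QV s k m N t} ∩ Set.Icc (u : ℝ) (v : ℝ))).toReal]
  refine h6.trans (le_of_eq ?_)
  rw [hρ]
  field_simp

/-- number of the power sums -/
theorem card_VV (s m N : ℕ) (hN : 1 ≤ N) : ((VV s m N).card : ℝ) ≤ ((s : ℝ) + 1) ^ m * (N : ℝ) ^ (m * (m + 1) / 2) := by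
  unfold VV
  rw [Fintype.card_piFinset]
  have hN1 : (1 : ℝ) ≤ N := by exact_mod_cast hN
  have h1 : ∀ j : Fin m, ((range (s * N ^ ((j : ℕ) + 1) + 1)).card : ℝ) ≤ ((s : ℝ) + 1) * (N : ℝ) ^ ((j : ℕ) + 1) := by
    intro j
    rw [Finset.card_range]
    push_cast
    have : (1 : ℝ) ≤ (N : ℝ) ^ ((j : ℕ) + 1) := one_le_pow₀ hN1
    linarith
  push_cast
  refine (Finset.prod_le_prod (fun j _ => by positivity) (fun j _ => h1 j)).trans (le_of_eq ?_)
  rw [Finset.prod_mul_distrib, Finset.prod_const, Finset.card_univ, Fintype.card_fin, Finset.prod_pow_eq_pow_sum]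
  congr 2
  rw [Fin.sum_univ_eq_sum_range (fun j => j + 1) m, Finset.sum_add_distrib, Finset.sum_const, Finset.card_range,
    smul_eq_mul, mul_one, Finset.sum_range_id]
  have h2 : m * (m - 1) + 2 * m = m * (m + 1) := by
    cases m with
    | zero => rfl
    | succ n => rw [Nat.add_sub_cancel]; ring
  omega

/-- dependence on `t` -/
theorem sp_lip (k m N : ℕ) (t t' : ℝ) (c : Fin m → ℝ) :
    ‖sp k m N t c - sp k m N t' c‖ ≤ 2 * Real.pi * |t - t'| * (N : ℝ) ^ (k + 1) := by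
  unfold sp
  rw [← Finset.sum_sub_distrib]
  refine (norm_sum_le _ _).trans ?_
  have h1 : ∀ n ∈ Icc 1 N, ‖e (t * (n : ℝ) ^ k + lo m c n) - e (t' * (n : ℝ) ^ k + lo m c n)‖ ≤
      2 * Real.pi * |t - t'| * (N : ℝ) ^ k := by
    intro n hn
    rw [Finset.mem_Icc] at hn
    refine (e_lip _ _).trans ?_
    have h2 : t * (n : ℝ) ^ k + lo m c n - (t' * (n : ℝ) ^ k + lo m c n) = (t - t') * (n : ℝ) ^ k := by ring
    rw [h2, abs_mul, abs_of_nonneg (a := (n : ℝ) ^ k) (by positivity), ← mul_assoc]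
    have h3 : (n : ℝ) ^ k ≤ (N : ℝ) ^ k := pow_le_pow_left₀ (by positivity) (by exact_mod_cast hn.2) k
    exact mul_le_mul_of_nonneg_left h3 (by positivity)
  refine (Finset.sum_le_sum h1).trans (le_of_eq ?_)
  rw [Finset.sum_const, Nat.card_Icc, Nat.add_sub_cancel, nsmul_eq_mul, pow_succ]
  ring

/-- passing from `t` to a point at distance `N^(-k)` -/
theorem sp_shift (k m N M : ℕ) (t t' B : ℝ) (c : Fin m → ℝ) (hN : 1 ≤ N) (hM : M ≤ N) (hB : 0 ≤ B)
    (htt : |t - t'| ≤ 1 / (N : ℝ) ^ k)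
    (h : ∀ a : ℕ, a ≤ N → ‖sp k m a t' c‖ ≤ B) : ‖sp k m M t c‖ ≤ (1 + 2 * Real.pi * 2 ^ k) * B := by
  have hN' : (1 : ℝ) ≤ N := by exact_mod_cast hN
  have hN0 : (0 : ℝ) < N := by linarith
  have h1 : sp k m M t c = ∑ x ∈ range M, e ((t - t') * ((x + 1 : ℕ) : ℝ) ^ k) *
      e (t' * ((x + 1 : ℕ) : ℝ) ^ k + lo m c ((x + 1 : ℕ) : ℝ)) := by
    unfold sp
    rw [Pool.Agent.TH181.MW.sum_Icc_range]
    apply Finset.sum_congr rfl
    intro x _
    rw [← e_add]
    congr 1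
    ring
  have h2 := Pool.Agent.H520R3.abel_bound (fun x : ℕ => e ((t - t') * ((x + 1 : ℕ) : ℝ) ^ k))
    (fun x : ℕ => e (t' * ((x + 1 : ℕ) : ℝ) ^ k + lo m c ((x + 1 : ℕ) : ℝ))) B (2 * Real.pi * 2 ^ k) hB M
    (by
      intro X hX
      have h3 := h X (hX.trans hM)
      unfold sp at h3
      rwa [Pool.Agent.TH181.MW.sum_Icc_range] at h3)
    (fun x => (e_norm _).le)
    (by
      have h4 : ∀ x ∈ range M, ‖e ((t - t') * ((x + 1 + 1 : ℕ) : ℝ) ^ k) - e ((t - t') * ((x + 1 : ℕ) : ℝ) ^ k)‖ ≤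
          2 * Real.pi * |t - t'| * (((x + 1 + 1 : ℕ) : ℝ) ^ k - ((x + 1 : ℕ) : ℝ) ^ k) := by
        intro x _
        refine (e_lip _ _).trans (le_of_eq ?_)
        rw [← mul_sub, abs_mul, abs_of_nonneg (a := ((x + 1 + 1 : ℕ) : ℝ) ^ k - ((x + 1 : ℕ) : ℝ) ^ k)]
        · ring
        · have : ((x + 1 : ℕ) : ℝ) ^ k ≤ ((x + 1 + 1 : ℕ) : ℝ) ^ k :=
            pow_le_pow_left₀ (by positivity) (by push_cast; linarith) k
          linarith
      refine (Finset.sum_le_sum h4).trans ?_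
      rw [← Finset.mul_sum, Finset.sum_range_sub (fun x : ℕ => ((x + 1 : ℕ) : ℝ) ^ k)]
      have h5 : ((M + 1 : ℕ) : ℝ) ^ k - ((0 + 1 : ℕ) : ℝ) ^ k ≤ (2 * (N : ℝ)) ^ k := by
        have h6 : ((M + 1 : ℕ) : ℝ) ^ k ≤ (2 * (N : ℝ)) ^ k := by
          apply pow_le_pow_left₀ (by positivity)
          have : (M : ℝ) ≤ N := by exact_mod_cast hM
          push_cast
          linarith
        have h7 : (0 : ℝ) ≤ ((0 + 1 : ℕ) : ℝ) ^ k := by positivity
        linarith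
      calc 2 * Real.pi * |t - t'| * (((M + 1 : ℕ) : ℝ) ^ k - ((0 + 1 : ℕ) : ℝ) ^ k)
          ≤ 2 * Real.pi * |t - t'| * (2 * (N : ℝ)) ^ k :=
            mul_le_mul_of_nonneg_left h5 (by positivity)
        _ ≤ 2 * Real.pi * (1 / (N : ℝ) ^ k) * (2 * (N : ℝ)) ^ k := by
            apply mul_le_mul_of_nonneg_right _ (by positivity)
            exact mul_le_mul_of_nonneg_left htt (by positivity)
        _ = 2 * Real.pi * 2 ^ k := by
            rw [mul_pow]
            field_simp)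
  rw [h1]
  refine h2.trans (le_of_eq ?_)
  ring

theorem sp_le (k m N : ℕ) (t : ℝ) (c : Fin m → ℝ) : ‖sp k m N t c‖ ≤ N := by
  unfold sp
  refine (norm_sum_le _ _).trans ?_
  simp only [e_norm]
  rw [Finset.sum_const, Nat.card_Icc, Nat.add_sub_cancel, nsmul_eq_mul, mul_one]

/-- incomplete sums -/
theorem sp_max (k m N M : ℕ) (t K : ℝ) (hm : 1 ≤ m) (hN : 1 ≤ N) (hM : M ≤ N) (h : ∀ c : Fin m → ℝ, ‖sp k m N t c‖ ≤ K)
    (c : Fin m → ℝ) : ‖sp k m M t c‖ ≤ (4 + 4 * Real.log N) * K := by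
  have hN' : (1 : ℝ) ≤ N := by exact_mod_cast hN
  have hK0 : 0 ≤ K := (norm_nonneg _).trans (h 0)
  have hlo : ∀ (η : ℝ) (n : ℝ), lo m c n + η * n = lo m (Function.update c ⟨0, hm⟩ (c ⟨0, hm⟩ + η)) n := by
    intro η n
    unfold lo
    rw [← Finset.add_sum_erase Finset.univ _ (Finset.mem_univ (⟨0, hm⟩ : Fin m)),
      ← Finset.add_sum_erase Finset.univ (fun j => Function.update c ⟨0, hm⟩ (c ⟨0, hm⟩ + η) j * n ^ ((j : ℕ) + 1))
        (Finset.mem_univ (⟨0, hm⟩ : Fin m))]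
    rw [Function.update_self]
    have : ∑ x ∈ Finset.univ.erase (⟨0, hm⟩ : Fin m), c x * n ^ ((x : ℕ) + 1) =
        ∑ x ∈ Finset.univ.erase (⟨0, hm⟩ : Fin m), Function.update c ⟨0, hm⟩ (c ⟨0, hm⟩ + η) x * n ^ ((x : ℕ) + 1) := by
      refine Finset.sum_congr rfl fun x hx => ?_
      rw [Function.update_of_ne (Finset.ne_of_mem_erase hx)]
    rw [this]
    ring
  have h1 := max_le N M hN hM (fun n => e (t * (n : ℝ) ^ k + lo m c n)) K (fun η => by
    have h2 := h (Function.update c ⟨0, hm⟩ (c ⟨0, hm⟩ + η))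
    unfold sp at h2
    refine le_trans (le_of_eq ?_) h2
    congr 1
    refine Finset.sum_congr rfl fun n _ => ?_
    rw [← e_add, ← hlo]
    congr 1
    ring) 0
  have h3 : ∑ n ∈ Icc 1 M, e (t * (n : ℝ) ^ k + lo m c n) * e (0 * n) = sp k m M t c := by
    unfold sp
    refine Finset.sum_congr rfl fun n _ => ?_
    rw [zero_mul, Pool.Agent.TH181.MW.e_zero, mul_one]
  rw [h3] at h1
  refine h1.trans ?_
  apply mul_le_mul_of_nonneg_right _ hK0
  have := Real.log_nonneg hN'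
  linarith

end Pool.Agent.U922.MV
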