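import Pool.Agent.U922.MV.D
import Pool.Agent.TH181.MW.Cov
import Pool.Agent.W928.MW.Dim

/-! # Exceptional sets of leading coefficients -/

set_option autoImplicit false

open Finset MeasureTheory

namespace Pool.Agent.U922.MV

open Pool.Agent.helper132_dc (sk two_sk sk_pos)
open Pool.Agent.W928.MW (e ev_pow ev_log)
open Pool.Agent.TH181.MW (tup S_COV_t S_DIMG_t)

/-- large incomplete sums -/
def BdV (k m : ℕ) (θ : ℝ) (j : ℤ) (i : ℕ) : Set ℝ :=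
  {t : ℝ | t ∈ Set.Icc (j : ℝ) ((j : ℝ) + 1) ∧ ∃ M : ℕ, M ≤ 2 ^ i ∧ 2 ^ i ≤ 2 * M ∧
    ∃ c : Fin m → ℝ, (M : ℝ) ^ θ < ‖sp k m M t c‖}

theorem coverV (k m s : ℕ) (hm : 1 ≤ m) (κ : ℝ)
    (hJ : ∀ δ : ℝ, 0 < δ → ∃ C : ℝ, 0 < C ∧ ∀ N : ℕ, 1 ≤ N →
      ((VV s m N).card : ℝ) * (JV s m k N : ℝ) ≤ C * (N : ℝ) ^ (κ + δ))
    (θ ε' : ℝ) (hθ0 : 0 < θ) (hε' : 0 < ε') (j : ℤ) :
    ∃ i0 : ℕ, ∀ i : ℕ, i0 ≤ i → ∃ S : Finset ℝ,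
      (S.card : ℝ) ≤ ((2 : ℝ) ^ i) ^ (-(2 * (s : ℝ) * θ - κ) + (2 * (s : ℝ) + 2) * ε' + (k : ℝ)) ∧
      BdV k m θ j i ⊆ ⋃ x ∈ S, Set.Icc x (x + ((2 : ℝ) ^ i) ^ (-(k : ℝ))) := by
  obtain ⟨C, hC0, hCI⟩ := hJ ε' hε'
  have hk0 : (0 : ℝ) ≤ (k : ℝ) := Nat.cast_nonneg k
  obtain ⟨W, hW⟩ : ∃ W : ℝ, W = 1 + 2 * Real.pi * 2 ^ k := ⟨_, rfl⟩
  have hW0 : 0 < W := by rw [hW]; positivity
  obtain ⟨i1, h1⟩ := ev_log ε' hε' ((2 : ℝ) ^ θ * W)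
  obtain ⟨i3, h3⟩ := ev_pow ε' hε' (3 * C)
  refine ⟨i1 + i3, fun i hi => ?_⟩
  have g1 := h1 i (by omega)
  have g3 := h3 i (by omega)
  obtain ⟨X, hX⟩ : ∃ X : ℝ, X = (2 : ℝ) ^ i := ⟨_, rfl⟩
  rw [← hX] at g1 g3 ⊢
  have hX1 : (1 : ℝ) ≤ X := by rw [hX]; exact one_le_pow₀ (by norm_num)
  have hX0 : (0 : ℝ) < X := by linarith
  have hNX : (((2 ^ i : ℕ) : ℕ) : ℝ) = X := by rw [hX]; push_cast; rfl
  obtain ⟨μ, hμ⟩ : ∃ μ : ℝ, μ = X ^ (θ - ε') := ⟨_, rfl⟩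
  have hμ0 : 0 < μ := by rw [hμ]; positivity
  obtain ⟨δ, hδ⟩ : ∃ δ : ℝ, δ = X ^ (-(k : ℝ)) := ⟨_, rfl⟩
  rw [← hδ]
  have hδ0 : 0 < δ := by rw [hδ]; positivity
  have hδ1 : δ ≤ 1 := by
    rw [hδ]
    exact Real.rpow_le_one_of_one_le_of_nonpos hX1 (by linarith)
  have hδk : δ = 1 / (((2 ^ i : ℕ) : ℕ) : ℝ) ^ k := by
    rw [hδ, hNX, Real.rpow_neg hX0.le, Real.rpow_natCast, one_div]
  -- local constancy and the maximal inequality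
  obtain ⟨F, hF⟩ : ∃ F : Set ℝ, F = {t : ℝ | t ∈ Set.Icc (((j - 1 : ℤ)) : ℝ) (((j + 2 : ℤ)) : ℝ) ∧
    ∃ c : Fin m → ℝ, μ ≤ ‖sp k m (2 ^ i) t c‖} := ⟨_, rfl⟩
  have key2 : ∀ t ∈ BdV k m θ j i, ∀ t' : ℝ, |t' - t| ≤ δ → t' ∈ F := by
    rintro t ⟨ht1, M, hM1, hM2, ξ, hξ⟩ t' htt
    have htt' := abs_le.mp htt
    rw [hF]
    have c1 : (((j - 1 : ℤ)) : ℝ) = (j : ℝ) - 1 := by push_cast; ring
    have c2 : (((j + 2 : ℤ)) : ℝ) = (j : ℝ) + 2 := by push_cast; ring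
    refine ⟨⟨by rw [c1]; linarith [ht1.1, htt'.1], by rw [c2]; linarith [ht1.2, htt'.2]⟩, ?_⟩
    by_contra hcon
    push Not at hcon
    have hlog : 0 ≤ Real.log X := Real.log_nonneg hX1
    have h4 : ∀ a : ℕ, a ≤ 2 ^ i → ‖sp k m a t' ξ‖ ≤ (4 + 4 * Real.log X) * μ := by
      intro a ha
      have := sp_max k m (2 ^ i) a t' μ hm (Nat.one_le_two_pow) ha (fun c => (hcon c).le) ξ
      rwa [hNX] at this
    have h4' := sp_shift k m (2 ^ i) M t t' ((4 + 4 * Real.log X) * μ) ξ Nat.one_le_two_pow hM1 (by positivity)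
      (by rw [← hδk, abs_sub_comm]; exact htt) h4
    rw [← hW] at h4'
    have h5 : (X / 2) ^ θ ≤ (M : ℝ) ^ θ := by
      apply Real.rpow_le_rpow (by positivity) _ hθ0.le
      have : ((2 ^ i : ℕ) : ℝ) ≤ ((2 * M : ℕ) : ℝ) := by exact_mod_cast hM2
      rw [hNX] at this
      push_cast at this
      linarith
    have h6 : (X / 2) ^ θ = X ^ θ / (2 : ℝ) ^ θ := Real.div_rpow hX0.le (by norm_num) θ
    have h7 : W * ((4 + 4 * Real.log X) * μ) ≤ X ^ θ / (2 : ℝ) ^ θ := by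
      rw [le_div_iff₀ (by positivity)]
      have h8 : X ^ θ = X ^ ε' * μ := by
        rw [hμ, ← Real.rpow_add hX0]
        congr 1
        ring
      rw [h8]
      calc W * ((4 + 4 * Real.log X) * μ) * (2 : ℝ) ^ θ = ((2 : ℝ) ^ θ * W * (4 + 4 * Real.log X)) * μ := by ring
        _ ≤ X ^ ε' * μ := mul_le_mul_of_nonneg_right g1 hμ0.le
    have h9 : (M : ℝ) ^ θ < (M : ℝ) ^ θ := by
      calc (M : ℝ) ^ θ < ‖sp k m M t ξ‖ := hξ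
        _ ≤ W * ((4 + 4 * Real.log X) * μ) := h4'
        _ ≤ X ^ θ / (2 : ℝ) ^ θ := h7
        _ = (X / 2) ^ θ := h6.symm
        _ ≤ (M : ℝ) ^ θ := h5
    exact lt_irrefl _ h9
  -- measure of F
  have h5 := meas_v s k m (2 ^ i) (j - 1) (j + 2) μ (by omega) Nat.one_le_two_pow hμ0
  rw [← hF] at h5
  have hXJ := hCI (2 ^ i) Nat.one_le_two_pow
  rw [hNX] at hXJ
  obtain ⟨V, hV⟩ : ∃ V : ℝ, V = (3 * C) * (X ^ (κ + ε') / μ ^ (2 * s)) := ⟨_, rfl⟩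
  have h6 : volume F ≤ ENNReal.ofReal V := by
    refine h5.trans (ENNReal.ofReal_le_ofReal ?_)
    have c3 : (((j + 2 : ℤ)) : ℝ) - (((j - 1 : ℤ)) : ℝ) = 3 := by push_cast; ring
    rw [c3]
    have h7 : ((VV s m (2 ^ i)).card : ℝ) * (3 * (JV s m k (2 ^ i) : ℝ)) ≤ (3 * C) * X ^ (κ + ε') := by
      calc ((VV s m (2 ^ i)).card : ℝ) * (3 * (JV s m k (2 ^ i) : ℝ)) =
          3 * (((VV s m (2 ^ i)).card : ℝ) * (JV s m k (2 ^ i) : ℝ)) := by ring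
        _ ≤ 3 * (C * X ^ (κ + ε')) := by linarith
        _ = _ := by ring
    rw [hV, ← mul_div_assoc]
    exact div_le_div_of_nonneg_right h7 (by positivity)
  have hV0 : 0 ≤ V := by rw [hV]; positivity
  obtain ⟨S, hS1, hS2⟩ := S_COV_t (BdV k m θ j i) F δ V (j : ℝ) ((j : ℝ) + 1) hδ0 hV0
    (fun t ht => ht.1) key2 h6
  refine ⟨S, hS1.trans ?_, hS2⟩
  have h9 : μ ^ (2 * s) = X ^ (2 * (s : ℝ) * (θ - ε')) := by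
    rw [hμ, ← Real.rpow_natCast, ← Real.rpow_mul hX0.le]
    congr 1
    push_cast; ring
  rw [hV, h9, hδ, ← Real.rpow_sub hX0, mul_div_assoc, ← Real.rpow_sub hX0]
  calc (3 * C) * X ^ (κ + ε' - 2 * (s : ℝ) * (θ - ε') - -(k : ℝ))
      ≤ X ^ ε' * X ^ (κ + ε' - 2 * (s : ℝ) * (θ - ε') - -(k : ℝ)) :=
        mul_le_mul_of_nonneg_right g3 (by positivity)
    _ = X ^ (-(2 * (s : ℝ) * θ - κ) + (2 * (s : ℝ) + 2) * ε' + (k : ℝ)) := by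
        rw [← Real.rpow_add hX0]
        congr 1
        ring

/-- the exceptional set -/
def XV (k m : ℕ) (θ : ℝ) : Set ℝ :=
  {t : ℝ | ¬ ∃ C : ℝ, ∀ N : ℕ, 1 ≤ N → ∀ c : Fin m → ℝ, ‖sp k m N t c‖ ≤ C * (N : ℝ) ^ θ}

theorem bad_v (k m : ℕ) (θ : ℝ) (hθ0 : 0 < θ) (t : ℝ) (ht : t ∈ XV k m θ) :
    ∀ i1 : ℕ, ∃ i : ℕ, i1 ≤ i ∧ t ∈ BdV k m θ ⌊t⌋ i := by
  intro i1
  by_contra hcon
  push Not at hcon
  apply ht
  refine ⟨(2 : ℝ) ^ i1 + 1, ?_⟩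
  intro N hN c
  have hN' : (1 : ℝ) ≤ (N : ℝ) := by exact_mod_cast hN
  obtain ⟨R, hR⟩ : ∃ R : ℝ, R = (N : ℝ) ^ θ := ⟨_, rfl⟩
  have hR1 : 1 ≤ R := by rw [hR]; exact Real.one_le_rpow hN' hθ0.le
  rw [← hR]
  have hp : (0 : ℝ) < (2 : ℝ) ^ i1 := by positivity
  have hpR : (2 : ℝ) ^ i1 * 1 ≤ (2 : ℝ) ^ i1 * R := mul_le_mul_of_nonneg_left hR1 hp.le
  rcases le_total N (2 ^ i1) with hN2 | hN2
  · have h4 : (N : ℝ) ≤ (2 : ℝ) ^ i1 := by exact_mod_cast hN2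
    refine (sp_le k m N t c).trans ?_
    linarith
  · obtain ⟨i, hi1, hi2⟩ : ∃ i : ℕ, N ≤ 2 ^ i ∧ 2 ^ i ≤ 2 * N := by
      refine ⟨Nat.log 2 N + 1, (Nat.lt_pow_succ_log_self (by norm_num) N).le, ?_⟩
      have := Nat.pow_log_le_self 2 (show N ≠ 0 by omega)
      rw [pow_succ]
      omega
    have hii : i1 ≤ i := by
      have : 2 ^ i1 ≤ 2 ^ i := hN2.trans hi1
      exact (Nat.pow_le_pow_iff_right (by norm_num)).mp this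
    have h5 := hcon i hii
    have h6 : ‖sp k m N t c‖ ≤ R := by
      by_contra h7
      push Not at h7
      apply h5
      exact ⟨⟨Int.floor_le t, (Int.lt_floor_add_one t).le⟩, N, hi1, hi2, c, by rw [← hR]; exact h7⟩
    linarith

theorem dimV0 (k m s : ℕ) (hm : 1 ≤ m) (hk : 1 ≤ k) (hs : 1 ≤ s) (κ : ℝ)
    (hJ : ∀ δ : ℝ, 0 < δ → ∃ C : ℝ, 0 < C ∧ ∀ N : ℕ, 1 ≤ N →
      ((VV s m N).card : ℝ) * (JV s m k N : ℝ) ≤ C * (N : ℝ) ^ (κ + δ))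
    (θ ρ : ℝ) (hθ0 : 0 < θ) (hρ : ρ = 2 * (s : ℝ) * θ - κ)
    (hρ1 : ρ < (k : ℝ)) (η : ℝ) (hη : 0 < η) :
    dimH (XV k m θ) ≤ ENNReal.ofReal (1 - ρ / (k : ℝ) + η) := by
  have hs1 : (1 : ℝ) ≤ (s : ℝ) := by exact_mod_cast hs
  have hG0 : (0 : ℝ) < k := by exact_mod_cast hk
  have hρG : ρ / k < 1 := (div_lt_one hG0).2 hρ1
  obtain ⟨D, hD⟩ : ∃ D : ℝ, D = 1 - ρ / k + η := ⟨_, rfl⟩
  rw [← hD]
  have hD0 : 0 < D := by rw [hD]; linarith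
  obtain ⟨ε', hε'⟩ : ∃ ε' : ℝ, ε' = k * η / (2 * (2 * (s : ℝ) + 2)) := ⟨_, rfl⟩
  have hε'0 : 0 < ε' := by rw [hε']; positivity
  have hε'1 : (2 * (s : ℝ) + 2) * ε' = k * η / 2 := by rw [hε']; field_simp
  have hsub : XV k m θ ⊆ ⋃ j : ℤ, {t : ℝ | ∀ i1 : ℕ, ∃ i : ℕ, i1 ≤ i ∧ t ∈ BdV k m θ j i} := by
    intro t ht
    rw [Set.mem_iUnion]
    exact ⟨⌊t⌋, bad_v k m θ hθ0 t ht⟩
  refine (dimH_mono hsub).trans ?_
  rw [dimH_iUnion]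
  apply iSup_le
  intro j
  have hcov := coverV k m s hm κ hJ θ ε' hθ0 hε'0 j
  rw [← hρ] at hcov
  refine S_DIMG_t (-ρ + (2 * (s : ℝ) + 2) * ε' + k) k D (BdV k m θ j) hG0 hD0 ?_ hcov
  have e1 : (k : ℝ) * D = k + k * η - ρ := by
    rw [hD]
    have : (k : ℝ) * (ρ / k) = ρ := by field_simp
    linear_combination (-1 : ℝ) * this
  have e4 : 0 < (k : ℝ) * η := by positivity
  rw [e1]
  linarith

/-- **dimension of the exceptional set** -/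
theorem dimV (k m : ℕ) (hm : 1 ≤ m) (hmk : m + 2 ≤ k) (θ : ℝ) (hθ0 : 0 < θ) (hθ1 : θ ≤ 1) :
    dimH (XV k m θ) ≤ ENNReal.ofReal
      (1 - (((m : ℝ) + 1) * (m + 2) * θ - ((m : ℝ) + 1) ^ 2) / (k : ℝ)) := by
  obtain ⟨s, hs⟩ : ∃ s, s = sk (m + 1) := ⟨_, rfl⟩
  have hs1 : 1 ≤ s := by rw [hs]; exact sk_pos (m + 1) (by omega)
  have hs2 : 2 * (s : ℝ) = ((m : ℝ) + 1) * (m + 2) := by
    have := two_sk (m + 1)
    rw [← hs] at this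
    have h : ((2 * s : ℕ) : ℝ) = (((m + 1) * (m + 1 + 1) : ℕ) : ℝ) := by exact_mod_cast this
    push_cast at h
    rw [h]; ring
  have hkm : (m : ℝ) + 2 ≤ k := by exact_mod_cast hmk
  have hm0 : (1 : ℝ) ≤ m := by exact_mod_cast hm
  have hJ : ∀ δ : ℝ, 0 < δ → ∃ C : ℝ, 0 < C ∧ ∀ N : ℕ, 1 ≤ N →
      ((VV s m N).card : ℝ) * (JV s m k N : ℝ) ≤ C * (N : ℝ) ^ (((m : ℝ) + 1) ^ 2 + δ) := by
    intro δ hδ
    obtain ⟨C, hC, h⟩ := jv_bound m k (by omega) δ hδ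
    rw [← hs] at h
    refine ⟨((s : ℝ) + 1) ^ m * C, by positivity, fun N hN => ?_⟩
    have hN0 : (0 : ℝ) < N := by exact_mod_cast (by omega : 0 < N)
    have h1 := card_VV s m N hN
    have h2 := h N hN
    refine (mul_le_mul h1 h2 (Nat.cast_nonneg _) (by positivity)).trans (le_of_eq ?_)
    have h3 : (N : ℝ) ^ (m * (m + 1) / 2) = (N : ℝ) ^ ((m : ℝ) * (m + 1) / 2) := by
      rw [← Real.rpow_natCast]
      congr 1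
      have h4 : 2 ∣ m * (m + 1) := (Nat.even_mul_succ_self m).two_dvd
      rw [Nat.cast_div h4 (by norm_num)]
      push_cast; ring
    rw [h3]
    have h4 : (N : ℝ) ^ (((m : ℝ) + 1) ^ 2 + δ) = (N : ℝ) ^ ((m : ℝ) * (m + 1) / 2) * (N : ℝ) ^ ((s : ℝ) + δ) := by
      rw [← Real.rpow_add hN0]
      congr 1
      linarith
    rw [h4]; ring
  obtain ⟨ρ, hρ⟩ : ∃ ρ : ℝ, ρ = ((m : ℝ) + 1) * (m + 2) * θ - ((m : ℝ) + 1) ^ 2 := ⟨_, rfl⟩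
  rw [← hρ]
  have hG0 : 0 < (k : ℝ) := by linarith
  have hρ1 : ρ < (k : ℝ) := by
    have h1 : ((m : ℝ) + 1) * (m + 2) * θ ≤ ((m : ℝ) + 1) * (m + 2) * 1 :=
      mul_le_mul_of_nonneg_left hθ1 (by positivity)
    have h2 : ((m : ℝ) + 1) * (m + 2) * 1 - ((m : ℝ) + 1) ^ 2 = m + 1 := by ring
    rw [hρ]
    linarith
  have hD0 : 0 ≤ 1 - ρ / (k : ℝ) := by
    have := (div_lt_one hG0).2 hρ1
    linarith
  apply ENNReal.le_of_forall_pos_le_add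
  intro η hη _
  have h1 := dimV0 k m s hm (by omega) hs1 (((m : ℝ) + 1) ^ 2) hJ θ ρ hθ0 (by rw [hs2, hρ]) hρ1 (η : ℝ)
    (by exact_mod_cast hη)
  refine h1.trans ?_
  rw [ENNReal.ofReal_add hD0 (by positivity)]
  gcongr
  simp

end Pool.Agent.U922.MV
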